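import Pool.Agent.Q163.WM.Re
import Pool.Agent.Q163.BC.Flip

set_option autoImplicit false

/-!
# The weak Mertens hypothesis for almost every completely multiplicative twist of the Moebius function

Let `χ` be the completely multiplicative function with independent fair signs at the primes, except that the
values at the primes of a set `Q` with `∑ 1 / √q < ∞` may be prescribed. For almost every `χ` the function
`μ χ` satisfies the weak Mertens hypothesis `∫_1^x (M(u) / u)² du ≤ C log x`; the same holds for all finite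
modifications. The probability that the integral exceeds `λ C₀ log x` for some `x ≥ 2` is at most `1 / λ`,
and the mean of the integral is `(6/π²) log x + O(1)`. For an arbitrary set `Q` the integral is almost surely
at most a constant times the product of the `1 + 1/p`, `p ∉ Q`, and of the `(1 + 1/√q)²`, `q ∈ Q`, over the
primes up to `x`.
-/

namespace Pool.Agent.Results.MP_323ce2_nt.AlmostEveryTwist

open Finset Filter Topology MeasureTheory Pool.Agent.Q163.RP Pool.Agent.Q163.RX Pool.Agent.Q163.GC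
  Pool.Agent.Q163.BC Pool.Agent.Q163.WM

open Classical in
/-- the completely multiplicative function with the value `s p` at the primes `p` of `Q` and the value `1` or
`-1` according to `ω p` at the other primes `p` -/
noncomputable def chi (Q : Set ℕ) (s : ℕ → ℝ) (ω : ℕ → Bool) (n : ℕ) : ℝ :=
  ∏ p ∈ n.primeFactors, (if p ∈ Q then s p else if ω p = true then 1 else -1) ^ n.factorization p

/-- the Moebius function -/
noncomputable def moeb (n : ℕ) : ℝ := ((ArithmeticFunction.moebius n : ℤ) : ℝ)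

/-- the summatory function of `f` -/
noncomputable def M (f : ℕ → ℝ) (u : ℝ) : ℝ := ∑ n ∈ Finset.Icc 1 ⌊u⌋₊, f n

/-- `I(x) = ∫_1^x (M(u)/u)² du` -/
noncomputable def I (f : ℕ → ℝ) (x : ℝ) : ℝ := ∫ u in (1:ℝ)..x, (M f u / u) ^ 2

/-- the weak Mertens hypothesis for `f` -/
def WeakMertens (f : ℕ → ℝ) : Prop := ∃ C : ℝ, ∀ x : ℝ, 2 ≤ x → I f x ≤ C * Real.log x

open Classical in
/-- the sum of the `1 / √q` over the primes `q` of `Q` converges -/
def Thin (Q : Set ℕ) : Prop := Summable fun p : ℕ => if p.Prime ∧ p ∈ Q then 1 / Real.sqrt p else 0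

lemma chi_eq (Q : Set ℕ) (s : ℕ → ℝ) (ω : ℕ → Bool) (n : ℕ) : chi Q s ω n = mult (vl Qᶜ s ω) n := by
  unfold chi mult vl es sgn
  refine Finset.prod_congr rfl fun p _ => ?_
  by_cases hp : p ∈ Q
  · have h1 : ¬ p ∈ Qᶜ := fun h => h hp
    rw [if_pos hp, if_neg h1]
  · have h1 : p ∈ Qᶜ := hp
    rw [if_neg hp, if_pos h1]

open Classical in
lemma thin_le {Q : Set ℕ} (hQ : Thin Q) : ∃ C : ℝ, 0 < C ∧ ∀ y : ℕ, 2 ≤ y → EE Qᶜ y ≤ C * Real.log y := by
  refine EE_le Qᶜ (∑' p : ℕ, if p.Prime ∧ p ∈ Q then 1 / Real.sqrt p else 0) fun y => ?_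
  have hle : ∑ p ∈ Icc 1 y, (if p.Prime ∧ p ∈ Q then 1 / Real.sqrt p else 0) ≤
      ∑' p : ℕ, if p.Prime ∧ p ∈ Q then 1 / Real.sqrt p else 0 :=
    Summable.sum_le_tsum _ (fun p _ => by split_ifs <;> positivity) hQ
  refine le_trans (le_of_eq ?_) hle
  rw [sum_filter]
  refine sum_congr rfl fun p _ => ?_
  by_cases h : p.Prime ∧ p ∈ Q
  · rw [if_pos h, if_pos ⟨h.1, fun h' => h' h.2⟩]
  · rw [if_neg h, if_neg]
    rintro ⟨a, b⟩
    exact h ⟨a, not_not.1 b⟩

/-- an almost sure property holds for all finite modifications -/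
theorem ae_finite {P : (ℕ → Bool) → Prop} (h : ∀ᵐ ω ∂cm, P ω) :
    ∀ᵐ ω ∂cm, ∀ ω' : ℕ → Bool, {p | ω' p ≠ ω p}.Finite → P ω' := by
  have h1 : ∀ᵐ ω ∂cm, ∀ S : Finset ℕ, P (flS (S : Set ℕ) ω) := by
    rw [ae_all_iff]
    intro S
    exact (mp_flS (S : Set ℕ)).quasiMeasurePreserving.ae h
  filter_upwards [h1] with ω hω ω' hf
  have h2 := hω hf.toFinset
  have h3 : flS ((hf.toFinset : Finset ℕ) : Set ℕ) ω = ω' := by
    funext p
    unfold flS
    rw [Set.Finite.coe_toFinset]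
    by_cases hp : ω' p = ω p
    · rw [if_neg (by simp [hp])]
      exact hp.symm
    · rw [if_pos (by simpa using hp)]
      cases hω : ω p <;> cases hω' : ω' p <;> simp_all
  rwa [h3] at h2

lemma abs_s {s : ℕ → ℝ} (hs : ∀ p, s p = 1 ∨ s p = -1) (p : ℕ) : |s p| ≤ 1 := by
  rcases hs p with h | h <;> rw [h] <;> simp

lemma I_eq (Q : Set ℕ) (s : ℕ → ℝ) (ω : ℕ → Bool) (x : ℝ) :
    I (fun n => moeb n * chi Q s ω n) x = Iq (fun n => mo n * mult (vl Qᶜ s ω) n) x := by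
  have h : (fun n => moeb n * chi Q s ω n) = fun n => mo n * mult (vl Qᶜ s ω) n := by
    funext n
    rw [chi_eq]
    rfl
  rw [h]
  rfl

/-- every set `Q` -/
theorem general (Q : Set ℕ) (s : ℕ → ℝ) (hs : ∀ p, s p = 1 ∨ s p = -1) :
    ∀ᵐ ω ∂cm, ∃ K : ℝ, 0 ≤ K ∧ ∀ x : ℝ, 1 ≤ x → I (fun n => moeb n * chi Q s ω n) x ≤ K * EE Qᶜ ⌊x⌋₊ := by
  filter_upwards [WW_bdd Qᶜ s (abs_s hs)] with ω hω
  obtain ⟨K, hK⟩ := hω
  refine ⟨K, Nat.cast_nonneg K, fun x hx => ?_⟩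
  rw [I_eq]
  exact Iq_le Qᶜ s ω K (Nat.cast_nonneg K) (fun n => by
    rw [ENNReal.ofReal_natCast]
    exact (hK n).le) x hx

lemma log_floor {x : ℝ} (hx : 2 ≤ x) : 2 ≤ ⌊x⌋₊ ∧ Real.log (⌊x⌋₊ : ℝ) ≤ Real.log x ∧ 0 ≤ Real.log x := by
  have h1 : 2 ≤ ⌊x⌋₊ := Nat.le_floor (by exact_mod_cast hx)
  have h2 : (0 : ℝ) < ⌊x⌋₊ := by exact_mod_cast (by omega : 0 < ⌊x⌋₊)
  exact ⟨h1, Real.log_le_log h2 (Nat.floor_le (by linarith)), Real.log_nonneg (by linarith)⟩

theorem thin_ae {Q : Set ℕ} (hQ : Thin Q) (s : ℕ → ℝ) (hs : ∀ p, s p = 1 ∨ s p = -1) :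
    ∀ᵐ ω ∂cm, WeakMertens fun n => moeb n * chi Q s ω n := by
  obtain ⟨C, hC, hC2⟩ := thin_le hQ
  filter_upwards [general Q s hs] with ω hω
  obtain ⟨K, hK, h⟩ := hω
  refine ⟨K * C, fun x hx => (h x (by linarith)).trans ?_⟩
  obtain ⟨h1, h2, h3⟩ := log_floor hx
  calc K * EE Qᶜ ⌊x⌋₊ ≤ K * (C * Real.log (⌊x⌋₊ : ℝ)) := mul_le_mul_of_nonneg_left (hC2 _ h1) hK
    _ ≤ K * (C * Real.log x) := by gcongr
    _ = K * C * Real.log x := by ring

/-- the mean -/
theorem mean (s : ℕ → ℝ) (X : ℕ) : ∫ ω, I (fun n => moeb n * chi ∅ s ω n) ((X + 1 : ℕ) : ℝ) ∂cm =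
    ∑ N ∈ Icc 1 X, QQ N / ((N : ℝ) * (N + 1)) := by
  have h1 : ∀ ω, I (fun n => moeb n * chi ∅ s ω n) ((X + 1 : ℕ) : ℝ) =
      ∑ N ∈ Icc 1 X, (∑ n ∈ Icc 1 N, mo n * ch ω n) ^ 2 / ((N : ℝ) * (N + 1)) := by
    intro ω
    rw [I_eq, (I_nat _ X).2]
    refine sum_congr rfl fun N _ => ?_
    congr 2
    refine sum_congr rfl fun n _ => ?_
    congr 1
    unfold ch mult vl sg
    refine prod_congr rfl fun p _ => ?_
    rw [if_pos (by simp), if_pos (Set.mem_univ p)]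
  simp_rw [h1]
  have hi : ∀ N, Integrable (fun ω => (∑ n ∈ Icc 1 N, mo n * ch ω n) ^ 2) cm := by
    intro N
    refine Integrable.of_bound ((Finset.measurable_fun_sum _ fun n _ =>
      (meas_ch n).const_mul _).pow_const 2).aestronglyMeasurable
      ((∑ n ∈ Icc 1 N, |mo n|) ^ 2) (Eventually.of_forall fun ω => ?_)
    rw [Real.norm_eq_abs, abs_pow]
    refine pow_le_pow_left₀ (abs_nonneg _) ((abs_sum_le_sum_abs _ _).trans (sum_le_sum fun n _ => ?_)) 2
    rw [abs_mul, abs_ch, mul_one]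
  rw [integral_finsetSum _ fun N _ => (hi N).div_const _]
  refine sum_congr rfl fun N _ => ?_
  rw [integral_div, second_moment]

theorem mean_asymp : ∃ C : ℝ, ∀ X : ℕ, |∑ N ∈ Icc 1 X, QQ N / ((N : ℝ) * (N + 1)) -
    6 / Real.pi ^ 2 * Real.log ((X + 1 : ℕ) : ℝ)| ≤ C := by
  have hs : Summable (fun n : ℕ => 1 / (n : ℝ) ^ (3 / 2 : ℝ)) :=
    Real.summable_one_div_nat_rpow.2 (by norm_num)
  have hκ : (0 : ℝ) ≤ 6 / Real.pi ^ 2 := by positivity
  refine ⟨5 * ∑' n : ℕ, 1 / (n : ℝ) ^ (3 / 2 : ℝ) + 6 / Real.pi ^ 2, fun X => ?_⟩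
  have h1 : ∑ N ∈ Icc 1 X, QQ N / ((N : ℝ) * (N + 1)) - 6 / Real.pi ^ 2 * Real.log ((X + 1 : ℕ) : ℝ) =
      ∑ N ∈ Icc 1 X, (QQ N - 6 / Real.pi ^ 2 * N) / ((N : ℝ) * (N + 1)) +
      6 / Real.pi ^ 2 * (∑ N ∈ Icc 1 X, 1 / ((N : ℝ) + 1) - Real.log ((X + 1 : ℕ) : ℝ)) := by
    rw [mul_sub, mul_sum, ← add_sub_assoc, ← sum_add_distrib]
    congr 1
    refine sum_congr rfl fun N hN => ?_
    have : (0 : ℝ) < N := by exact_mod_cast (mem_Icc.1 hN).1
    field_simp
    ring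
  rw [h1]
  refine (abs_add_le _ _).trans (add_le_add ?_ ?_)
  · refine (abs_sum_le_sum_abs _ _).trans ?_
    refine le_trans ?_ (mul_le_mul_of_nonneg_left (hs.sum_le_tsum (Icc 1 X) fun n _ => by positivity)
      (by norm_num : (0 : ℝ) ≤ 5))
    rw [mul_sum]
    refine sum_le_sum fun N hN => ?_
    have hN0 : (0 : ℝ) < N := by exact_mod_cast (mem_Icc.1 hN).1
    rw [abs_div, abs_of_pos (by positivity : (0 : ℝ) < (N : ℝ) * (N + 1))]
    have h2 := QQ_bound N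
    rw [div_le_iff₀ (by positivity)]
    refine h2.trans ?_
    have e1 : (N : ℝ) ^ (3 / 2 : ℝ) = N * Real.sqrt N := by
      rw [Real.sqrt_eq_rpow, show (3 / 2 : ℝ) = 1 + 1 / 2 by norm_num, Real.rpow_add hN0,
        Real.rpow_one]
    have hsq : 0 < Real.sqrt N := Real.sqrt_pos.2 hN0
    have hss : Real.sqrt N * Real.sqrt N = N := Real.mul_self_sqrt hN0.le
    rw [e1]
    have e2 : 5 * (1 / ((N : ℝ) * Real.sqrt N)) * ((N : ℝ) * (N + 1)) = 5 * ((N + 1) / Real.sqrt N) := by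
      field_simp
    rw [e2]
    refine mul_le_mul_of_nonneg_left ?_ (by norm_num)
    rw [le_div_iff₀ hsq, hss]
    linarith
  · rw [abs_mul, abs_of_nonneg hκ]
    have h3 : ∑ N ∈ Icc 1 X, 1 / ((N : ℝ) + 1) = (harmonic (X + 1) : ℝ) - 1 := by
      have : (harmonic (X + 1) : ℝ) = ∑ i ∈ range (X + 1), 1 / ((i : ℝ) + 1) := by
        unfold harmonic
        push_cast
        exact sum_congr rfl fun i _ => (one_div _).symm
      rw [this, sum_range_succ']
      simp only [Nat.cast_add, Nat.cast_one, Nat.cast_zero, zero_add, div_one, add_sub_cancel_right]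
      refine sum_nbij' (fun n => n - 1) (fun n => n + 1) ?_ ?_ ?_ ?_ ?_
      · intro n hn
        rw [mem_Icc] at hn
        rw [mem_range]
        omega
      · intro n hn
        rw [mem_range] at hn
        rw [mem_Icc]
        omega
      · intro n hn
        rw [mem_Icc] at hn
        show n - 1 + 1 = n
        omega
      · intro n _
        rfl
      · intro n hn
        rw [mem_Icc] at hn
        have : ((n - 1 : ℕ) : ℝ) + 1 = n := by
          rw [Nat.cast_sub hn.1]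
          simp
        rw [this]
    have h4 := harmonic_le_one_add_log (X + 1)
    have h5 := log_add_one_le_harmonic (X + 1)
    have h6 : Real.log ((X + 1 : ℕ) : ℝ) ≤ Real.log (((X + 1 : ℕ) : ℝ) + 1) :=
      Real.log_le_log (by positivity) (by linarith)
    rw [h3]
    have h7 : |(harmonic (X + 1) : ℝ) - 1 - Real.log ((X + 1 : ℕ) : ℝ)| ≤ 1 := by
      push_cast at h4 h5 h6 ⊢
      rw [abs_le]
      constructor <;> linarith
    calc 6 / Real.pi ^ 2 * |(harmonic (X + 1) : ℝ) - 1 - Real.log ((X + 1 : ℕ) : ℝ)|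
        ≤ 6 / Real.pi ^ 2 * 1 := mul_le_mul_of_nonneg_left h7 hκ
      _ = 6 / Real.pi ^ 2 := mul_one _

open Classical in
/-- **The weak Mertens hypothesis for almost every completely multiplicative twist.** -/
theorem result :
    -- (1) the hypothesis, for prescribed signs at a thin set, and for all finite modifications
    (∀ (Q : Set ℕ) (s : ℕ → ℝ), Thin Q → (∀ p, s p = 1 ∨ s p = -1) → ∀ᵐ ω ∂cm, ∀ ω' : ℕ → Bool,
      {p | ω' p ≠ ω p}.Finite → WeakMertens fun n => moeb n * chi Q s ω' n) ∧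
    -- (2) quantitative form
    (∀ Q : Set ℕ, Thin Q → ∃ C : ℝ, 0 < C ∧ ∀ s : ℕ → ℝ, (∀ p, s p = 1 ∨ s p = -1) →
      ∀ l : ℝ, 0 < l →
      cm {ω | ∃ x : ℝ, 2 ≤ x ∧ l * C * Real.log x < I (fun n => moeb n * chi Q s ω n) x} ≤
        ENNReal.ofReal (1 / l)) ∧
    -- (3) the mean
    (∀ s : ℕ → ℝ, ∃ C : ℝ, ∀ X : ℕ, 1 ≤ X →
      |∫ ω, I (fun n => moeb n * chi ∅ s ω n) X ∂cm - 6 / Real.pi ^ 2 * Real.log X| ≤ C) ∧
    -- (4) an arbitrary set of prescribed signs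
    (∀ (Q : Set ℕ) (s : ℕ → ℝ), (∀ p, s p = 1 ∨ s p = -1) → ∀ᵐ ω ∂cm, ∃ C : ℝ, ∀ x : ℝ, 1 ≤ x →
      I (fun n => moeb n * chi Q s ω n) x ≤ C * ∏ p ∈ (Finset.Icc 1 ⌊x⌋₊).filter Nat.Prime,
        (if p ∈ Q then (1 + 1 / Real.sqrt p) ^ 2 else 1 + 1 / (p : ℝ))) ∧
    -- (5) twists which agree with the Moebius function at a thin set of primes
    (∀ Q : Set ℕ, Thin Q → ∃ g : ℕ → ℝ, (∀ n, g n = 1 ∨ g n = -1) ∧
      (∀ m n, 1 ≤ m → 1 ≤ n → g (m * n) = g m * g n) ∧ (∀ p : ℕ, p.Prime → p ∈ Q → g p = 1) ∧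
      WeakMertens fun n => moeb n * g n) := by
  refine ⟨?_, ?_, ?_, ?_, ?_⟩
  · intro Q s hQ hs
    exact ae_finite (thin_ae hQ s hs)
  · intro Q hQ
    obtain ⟨C, hC, hC2⟩ := thin_le hQ
    refine ⟨C, hC, fun s hs l hl => ?_⟩
    have h1 := WW_max Qᶜ s (abs_s hs) (ENNReal.ofReal l)
    have h2 : cm {ω | ∃ x : ℝ, 2 ≤ x ∧ l * C * Real.log x < I (fun n => moeb n * chi Q s ω n) x} ≤
        cm {ω | ∃ n, ENNReal.ofReal l ≤ WW Qᶜ s n ω} := by
      refine measure_mono fun ω hω => ?_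
      obtain ⟨x, hx, h3⟩ := hω
      by_contra hc
      have h4 : ∀ n, WW Qᶜ s n ω ≤ ENNReal.ofReal l := by
        intro n
        by_contra h5
        exact hc ⟨n, (not_le.1 h5).le⟩
      rw [I_eq] at h3
      have h5 := Iq_le Qᶜ s ω l hl.le h4 x (by linarith)
      obtain ⟨h6, h7, h8⟩ := log_floor hx
      have h9 : l * EE Qᶜ ⌊x⌋₊ ≤ l * C * Real.log x := by
        calc l * EE Qᶜ ⌊x⌋₊ ≤ l * (C * Real.log (⌊x⌋₊ : ℝ)) :=
              mul_le_mul_of_nonneg_left (hC2 _ h6) hl.le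
          _ ≤ l * (C * Real.log x) := by gcongr
          _ = l * C * Real.log x := by ring
      linarith
    refine h2.trans ?_
    rw [ENNReal.ofReal_div_of_pos hl, ENNReal.ofReal_one, ENNReal.le_div_iff_mul_le
      (Or.inl (by simpa using hl)) (Or.inl ENNReal.ofReal_ne_top), mul_comm]
    exact h1
  · intro s
    obtain ⟨C, hC⟩ := mean_asymp
    refine ⟨C, fun X hX => ?_⟩
    obtain ⟨Y, rfl⟩ : ∃ Y, X = Y + 1 := ⟨X - 1, by omega⟩
    rw [mean s Y]
    exact hC Y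
  · intro Q s hs
    filter_upwards [general Q s hs] with ω hω
    obtain ⟨K, _, h⟩ := hω
    refine ⟨K, fun x hx => (h x hx).trans (le_of_eq ?_)⟩
    congr 1
    unfold EE
    refine prod_congr rfl fun p _ => ?_
    unfold fac
    by_cases hp : p ∈ Q
    · rw [if_pos hp, if_neg (by simpa using hp)]
    · rw [if_neg hp, if_pos (by simpa using hp)]
  · intro Q hQ
    obtain ⟨ω, hω⟩ := (thin_ae hQ (fun _ => 1) (fun _ => Or.inl rfl)).exists
    refine ⟨chi Q (fun _ => 1) ω, ?_, ?_, ?_, hω⟩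
    · intro n
      rw [chi_eq]
      have h1 : ∀ p, |vl Qᶜ (fun _ => (1 : ℝ)) ω p| = 1 := by
        intro p
        unfold vl
        split_ifs
        · rcases signs.sign p ω with h | h <;> rw [h] <;> simp
        · simp
      exact (abs_eq zero_le_one).1 (abs_mult _ h1 n)
    · intro m n hm hn
      rw [chi_eq, chi_eq, chi_eq]
      exact mult_mul _ (by omega) (by omega)
    · intro p hp hpQ
      unfold chi
      rw [hp.primeFactors, Finset.prod_singleton, hp.factorization_self, pow_one, if_pos hpQ]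

end Pool.Agent.Results.MP_323ce2_nt.AlmostEveryTwist
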