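import Pool.Agent.Q97.UM.Ap

set_option autoImplicit false

/-!
# MP_323ce2_nt: how fast can `M(e^v) e^{-v/2}` be approximated by trigonometric polynomials?

Let `M(u) = ∑_{n ≤ u} μ(n)` and `f(v) = M(e^v) e^{-v/2}`. Unconditionally there is `c > 0` such that for all `T ≥ 1` and every trigonometric
polynomial `P(v) = ∑ a_l e^{ilv}` with frequencies `|l| ≤ T`, the lower limit of `(1/V) ∫_0^V |f - P|²` is at least `c / T`.
On the weak Mertens hypothesis the best approximation by such `P` is the sum over the zeros with `|γ| ≤ T`, with error the tail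
`∑_{|γ| > T} 1 / |ρ ζ'(ρ)|²`, which is therefore at least `c / T`.
-/

namespace Pool.Agent.Results.MP_323ce2_nt.ApproximationRate

open Filter Topology MeasureTheory Complex

noncomputable section

/-- the Mertens function -/
def M (u : ℝ) : ℝ := ∑ n ∈ Finset.Icc 1 ⌊u⌋₊, ((ArithmeticFunction.moebius n : ℤ) : ℝ)

/-- the weak Mertens hypothesis -/
def WeakMertens : Prop := ∃ C : ℝ, ∀ x : ℝ, 2 ≤ x → ∫ u in (1:ℝ)..x, (M u / u) ^ 2 ≤ C * Real.log x

/-- `f(v) = M(e^v) e^{-v/2}` -/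
def f (v : ℝ) : ℝ := M (Real.exp v) * Real.exp (-(v / 2))

/-- the mean of `g` over `[0, V]` -/
def mean (g : ℝ → ℝ) (V : ℝ) : ℝ := (∫ v in (0:ℝ)..V, g v) / V

/-- the trigonometric polynomials with frequencies in `[-T, T]` -/
def Trig (T : ℝ) : Set (ℝ → ℂ) :=
  {P | ∃ (K : Finset ℝ) (a : ℝ → ℂ), (∀ l ∈ K, |l| ≤ T) ∧ ∀ v : ℝ, P v = ∑ l ∈ K, a l * cexp (I * l * v)}

/-- the mean square distance of `f` and `P` on `[0, V]` -/
def dist2 (P : ℝ → ℂ) (V : ℝ) : ℝ := mean (fun v => ‖((f v : ℝ) : ℂ) - P v‖ ^ 2) V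

/-- the nontrivial zeros of zeta with ordinate of absolute value greater than `T` -/
def high (T : ℝ) : Set ℂ := {s : ℂ | riemannZeta s = 0 ∧ 0 < s.re ∧ s.re < 1 ∧ T < |s.im|}

/-- the sum of `1 / |ρ ζ'(ρ)|²` over the zeros with `|γ| > T` -/
def tail (T : ℝ) : ℝ := ∑' ρ : high T, 1 / ‖(ρ : ℂ) * deriv riemannZeta ρ‖ ^ 2

open Pool.Agent.TH223.AP in
lemma ft_eq : f = ft := rfl

lemma low_finite (T : ℝ) : {s : ℂ | riemannZeta s = 0 ∧ 0 < s.re ∧ s.re < 1 ∧ |s.im| ≤ T}.Finite := by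
  have hcomp : IsCompact (Set.Icc (0 : ℝ) 1 ×ℂ Set.Icc (-T) T) := isCompact_Icc.reProdIm isCompact_Icc
  refine hcomp.inter_riemannZetaZeros_finite.subset ?_
  rintro s ⟨h0, h1, h2, h3⟩
  rw [abs_le] at h3
  exact ⟨⟨⟨h1.le, h2.le⟩, ⟨h3.1, h3.2⟩⟩, h0⟩

open Pool.Agent.TH223.AP Pool.Agent.W120.WM in
/-- the tail is what the finite sum leaves -/
lemma tail_eq (hZ : ZC) (T : ℝ) : Summable (fun ρ : high T => 1 / ‖(ρ : ℂ) * deriv riemannZeta ρ‖ ^ 2) ∧
    tail T = Pool.Agent.TH223.AP.SS - ∑ ρ ∈ (low_finite T).toFinset, 1 / ‖ρ * deriv riemannZeta ρ‖ ^ 2 := by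
  classical
  obtain ⟨g, hg⟩ : ∃ g : ℂ → ℝ, g = fun ρ => 1 / ‖ρ * deriv riemannZeta ρ‖ ^ 2 := ⟨_, rfl⟩
  have hs : Summable (fun ρ : NT => g ρ) := by rw [hg]; exact hZ.2
  have hi1 : Summable (NT.indicator g) := (summable_subtype_iff_indicator (f := g) (s := NT)).1 hs
  have hsub : high T ⊆ NT := fun s hs => ⟨hs.1, hs.2.1, hs.2.2.1⟩
  have hi2 : Summable ((high T).indicator g) := by
    have h1 := hi1.indicator (high T)
    have h2 : (high T).indicator (NT.indicator g) = (high T).indicator g := by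
      rw [Set.indicator_indicator, Set.inter_eq_left.2 hsub]
    rwa [h2] at h1
  have hs2 : Summable (fun ρ : high T => g ρ) := (summable_subtype_iff_indicator (f := g) (s := high T)).2 hi2
  refine ⟨by rw [hg] at hs2; exact hs2, ?_⟩
  have e1 : tail T = ∑' s, (high T).indicator g s := by
    rw [← tsum_subtype (high T) g, hg]
    rfl
  have e2 : Pool.Agent.TH223.AP.SS = ∑' s, NT.indicator g s := by
    rw [← tsum_subtype NT g, hg]
    rfl
  have e3 : ∑ ρ ∈ (low_finite T).toFinset, 1 / ‖ρ * deriv riemannZeta ρ‖ ^ 2 =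
      ∑' s, ((low_finite T).toFinset : Set ℂ).indicator g s := by
    rw [← Finset.tsum_subtype' (low_finite T).toFinset (fun ρ => 1 / ‖ρ * deriv riemannZeta ρ‖ ^ 2), ← tsum_subtype _ g, hg]
  have hi3 : Summable (((low_finite T).toFinset : Set ℂ).indicator g) := by
    have h3 : Summable (fun ρ : ((low_finite T).toFinset : Set ℂ) => g ρ) := (low_finite T).toFinset.summable g
    exact (summable_subtype_iff_indicator (f := g)).1 h3
  rw [e1, e2, e3, ← hi1.tsum_sub hi3]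
  refine tsum_congr fun s => ?_
  by_cases h1 : s ∈ NT
  · by_cases h2 : T < |s.im|
    · have h3 : s ∈ high T := ⟨h1.1, h1.2.1, h1.2.2, h2⟩
      have h4 : s ∉ ((low_finite T).toFinset : Set ℂ) := by
        rw [Finset.mem_coe, Set.Finite.mem_toFinset]
        rintro ⟨-, -, -, h5⟩
        linarith
      rw [Set.indicator_of_mem h3, Set.indicator_of_mem h1, Set.indicator_of_notMem h4, sub_zero]
    · have h3 : s ∉ high T := fun h => h2 h.2.2.2
      have h4 : s ∈ ((low_finite T).toFinset : Set ℂ) := by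
        rw [Finset.mem_coe, Set.Finite.mem_toFinset]
        exact ⟨h1.1, h1.2.1, h1.2.2, not_lt.1 h2⟩
      rw [Set.indicator_of_notMem h3, Set.indicator_of_mem h1, Set.indicator_of_mem h4, sub_self]
  · have h3 : s ∉ high T := fun h => h1 (hsub h)
    have h4 : s ∉ ((low_finite T).toFinset : Set ℂ) := by
      rw [Finset.mem_coe, Set.Finite.mem_toFinset]
      rintro ⟨h5, h6, h7, -⟩
      exact h1 ⟨h5, h6, h7⟩
    rw [Set.indicator_of_notMem h3, Set.indicator_of_notMem h1, Set.indicator_of_notMem h4, sub_zero]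

/-- **the rate of approximation of `M(e^v) e^{-v/2}` by trigonometric polynomials** -/
theorem result : ∃ c : ℝ, 0 < c ∧
    (∀ T : ℝ, 1 ≤ T → ∀ P ∈ Trig T, ∀ᶠ V : ℝ in atTop, c / T ≤ dist2 P V) ∧
    (WeakMertens → ∀ T : ℝ, 0 ≤ T →
      (∀ P ∈ Trig T, ∀ ε : ℝ, 0 < ε → ∀ᶠ V : ℝ in atTop, tail T - ε ≤ dist2 P V) ∧
      (∃ P ∈ Trig T, Tendsto (dist2 P) atTop (𝓝 (tail T))) ∧ (1 ≤ T → c / T ≤ tail T)) := by
  obtain ⟨c, hc, h⟩ := Pool.Agent.Q97.UM.Ap.approx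
  have h1 : ∀ T : ℝ, 1 ≤ T → ∀ P ∈ Trig T, ∀ᶠ V : ℝ in atTop, c / T ≤ dist2 P V := by
    rintro T hT P ⟨K, a, hK, hP⟩
    filter_upwards [h T hT K a hK] with V hV
    refine hV.trans (le_of_eq ?_)
    unfold dist2
    simp only [hP]
    rfl
  refine ⟨c, hc, h1, ?_⟩
  intro hW T hT
  have hZ : Pool.Agent.W120.WM.ZC := Pool.Agent.TH223.AP.WM_iff_ZC.1 hW
  obtain ⟨hsum, htail⟩ := tail_eq hZ T
  have hP0 : ∃ P ∈ Trig T, Tendsto (dist2 P) atTop (𝓝 (tail T)) := by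
    classical
    have hNT : ∀ ρ ∈ (low_finite T).toFinset, ρ ∈ Pool.Agent.W120.WM.NT := by
      intro ρ hρ
      rw [Set.Finite.mem_toFinset] at hρ
      exact ⟨hρ.1, hρ.2.1, hρ.2.2.1⟩
    have hre : ∀ ρ ∈ (low_finite T).toFinset, ρ.re = 1 / 2 := fun ρ hρ => (hZ.1 ρ (hNT ρ hρ)).1
    have h2 := Pool.Agent.TH223.AP.dist_lim' hZ (low_finite T).toFinset hNT
    rw [← htail] at h2
    refine ⟨fun v => ∑ ρ ∈ (low_finite T).toFinset, Pool.Agent.H295R2.ww ρ * Pool.Agent.H295R2.ee ρ v,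
      ⟨(low_finite T).toFinset.image Complex.im, fun l => Pool.Agent.H295R2.ww (⟨1 / 2, l⟩ : ℂ), ?_, ?_⟩, ?_⟩
    · intro l hl
      rw [Finset.mem_image] at hl
      obtain ⟨ρ, hρ, rfl⟩ := hl
      rw [Set.Finite.mem_toFinset] at hρ
      exact hρ.2.2.2
    · intro v
      exact Pool.Agent.Q97.UM.Ap.sum_trig' _ hre _ v
    · exact h2
  refine ⟨?_, hP0, ?_⟩
  · rintro P ⟨K, a, hK, hP⟩ ε hε
    have h3 := hsum.hasSum
    obtain ⟨u, hu⟩ := (Metric.tendsto_nhds.1 h3 (ε / 2) (by positivity)).exists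
    have hu2 : tail T - ε / 2 ≤ ∑ ρ ∈ u, 1 / ‖(ρ : ℂ) * deriv riemannZeta ρ‖ ^ 2 := by
      rw [Real.dist_eq, abs_lt] at hu
      have := hu.1
      unfold tail
      linarith
    obtain ⟨Z, hZdef⟩ : ∃ Z : Finset ℂ, Z = u.map (Function.Embedding.subtype _) := ⟨_, rfl⟩
    have hZN : ∀ ρ ∈ Z, ρ ∈ high T := by
      intro ρ hρ
      rw [hZdef, Finset.mem_map] at hρ
      obtain ⟨ρ', -, rfl⟩ := hρ
      exact ρ'.2
    have hZNT : ∀ ρ ∈ Z, ρ ∈ Pool.Agent.W120.WM.NT := fun ρ hρ => ⟨(hZN ρ hρ).1, (hZN ρ hρ).2.1, (hZN ρ hρ).2.2.1⟩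
    have hsumZ : ∑ ρ ∈ Z, ‖Pool.Agent.H295R2.ww ρ‖ ^ 2 = ∑ ρ ∈ u, 1 / ‖(ρ : ℂ) * deriv riemannZeta ρ‖ ^ 2 := by
      rw [hZdef, Finset.sum_map]
      refine Finset.sum_congr rfl fun ρ _ => ?_
      exact Pool.Agent.TH223.AP.ww_sq _
    have h4 := Pool.Agent.Q97.UM.Ap.low_gen (F := fun v => ((Pool.Agent.TH223.AP.ft v : ℝ) : ℂ))
      (fun V hV K a => Pool.Agent.Q97.UM.Ap.ft_int V hV K a) Pool.Agent.H295R2.ww Z (fun ρ hρ => (hZ.1 ρ (hZNT ρ hρ)).1)
      (fun ε hε => Pool.Agent.Q97.UM.Ap.ft_ap hZ Z hZNT ε hε) K a (fun ρ hρ hin => by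
        have h5 := hK _ hin
        have h6 := (hZN ρ hρ).2.2.2
        linarith) (ε / 2) (by positivity)
    filter_upwards [h4] with V hV
    have h5 : dist2 P V = Pool.Agent.TH223.AP.mn (fun v => ‖((Pool.Agent.TH223.AP.ft v : ℝ) : ℂ) - Pool.Agent.TH223.AP.trig K a v‖ ^ 2) V := by
      unfold dist2
      simp only [hP]
      rfl
    rw [h5]
    linarith
  · intro hT1
    obtain ⟨P, hP, hlim⟩ := hP0
    exact ge_of_tendsto hlim (h1 T hT1 P hP)

end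

end Pool.Agent.Results.MP_323ce2_nt.ApproximationRate
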