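import Pool.Agent.Q120.FZ.Main
import Pool.Agent.Q111.TT.ENTG
import Pool.Agent.Q208.FZ.HOEF
import Pool.Agent.Q208.FZ.SUP
import Pool.Agent.Q208.FZ.ASF
import Pool.Agent.Q208.FZ.LGP
import Pool.Agent.Q208.FZ.EUL
import Pool.Agent.Q208.FZ.SHIFT
import Pool.Agent.Q208.FZ.KLF
import Pool.Agent.Q208.FZ.SHF
import Pool.Agent.Q153.FZ.Cont
import Pool.Agent.Q119.FZ.Riesz
import Pool.Agent.Q119.FZ.Perr
import Pool.Agent.Q146.FZ.POLE
import Pool.Agent.Q299.RZ.Tail
import Pool.Agent.Q247.RZ.AN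

/-!
# The exact zero-free half plane of random multiplicative functions with given information

`f` is a random completely multiplicative function with values `1` and `-1`; `A ω` is the random set of the primes `p` with
`f p = 1` (elements of `A ω` which are not prime do not matter), `lam (A ω) n = f n`. The joint law of the signs is arbitrary;
`relEnt half μ A (pb k)` is the relative entropy (nats) of the law of the signs of the primes of `[2 ^ k, 2 ^ (k + 1))` with
respect to independent fair signs.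
-/

set_option autoImplicit false

namespace Pool.Agent.Results.MP_323ce2_nt.MertensAtAllLevels

open Finset MeasureTheory Filter Pool.Agent.Q120.ET Pool.Agent.Q120.TT Pool.Agent.Q120.FZ
open scoped Topology

theorem jobs : Jobs where
  entg := Pool.Agent.Q111.TT.t_ENTG
  hoef := Pool.Agent.Q208.FZ.t_HOEF
  sup := Pool.Agent.Q208.FZ.t_SUP
  asf := Pool.Agent.Q208.FZ.t_ASF
  cont := Pool.Agent.Q153.FZ.t_CONT
  lgp := Pool.Agent.Q208.FZ.t_LGP
  eul := Pool.Agent.Q208.FZ.t_EUL
  riesz := Pool.Agent.Q119.FZ.t_RIESZ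
  shift := Pool.Agent.Q208.FZ.t_SHIFT
  perr := Pool.Agent.Q119.FZ.t_PERR
  klf := Pool.Agent.Q208.FZ.t_KLF
  tail := Q299.RZ.t_TAIL
  shf := Pool.Agent.Q208.FZ.t_SHF
  an := Pool.Agent.Q247.RZ.t_AN
  pole := Pool.Agent.Q146.FZ.t_POLE

/-- For the random completely multiplicative functions whose signs have an entropy deficit of at most `2 ^ ((δ + o(1)) k)` nats in
each dyadic block of primes, `(1 + δ) / 2` is the exact boundary of the zero-free half plane in which the Lindelöf bound holds, and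
the exact exponent of the partial sums. Some of these functions have a pole at `(1 + δ) / 2`. -/
theorem result :
    (∀ δ θ : ℝ, 0 ≤ δ → δ < 1 → 1 / 2 ≤ θ → θ < 1 →
      (AllF δ (fun S => Lin S θ) ↔ (1 + δ) / 2 ≤ θ) ∧
      (AllF δ (fun S => Mer S θ) ↔ (1 + δ) / 2 ≤ θ)) ∧
    (∀ δ : ℝ, 0 < δ → δ < 1 → SomeF δ (fun S => ∀ θ : ℝ, θ < (1 + δ) / 2 → ¬ Cnt S θ)) :=
  ⟨fun _ _ h0 h1 h2 h3 => ⟨lin_iff jobs h0 h1 h2 h3, mer_iff jobs h0 h1 h2 h3⟩, fun _ h0 h1 => someF_pole jobs h0 h1⟩

end Pool.Agent.Results.MP_323ce2_nt.MertensAtAllLevels
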