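import Pool.Agent.Q241.SPL.MW

/-!
# The weak Mertens hypothesis only needs sampled values of `M`

Let `M(u) = ∑_{n ≤ u} μ(n)` and `0 ≤ θ < 1`, and let `m(u)` be measurable with `|m(u) - M(u)|` at most the
difference of two values of `M` on `[u - u^θ, u + u^θ]` for `u ≥ a`; for example `m(u) = M(y(u))` with
`|y(u) - u| ≤ u^θ`. Unconditionally:

* `(1 / log x) ∫_a^x (m(u)/u)² du` tends to `∑_ρ 1 / |ρ ζ'(ρ)|²`, read as `+∞` when RH fails, or some zero is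
  multiple, or the series diverges; the same on the windows `[x^(1-δ), x]`, with the limit multiplied by `δ`;
* the positive and the negative part of `m` have mean square `≫ x^(2 Re ρ - 1)` on each window
  `[x, x log x]`, `x` large, for each zero `ρ`, and `≫ x^(2 Re ρ - 1) (log x)²` if `ρ` is multiple;
* if the zeros have real part at most `Θ`, then `∫ (m(u) - M(u))² u^(-1-κ) du` converges for
  `κ > 2Θ - 1 + θ`;
* the first limit holds with the smallest, and with the largest, value of `|M|` on `[u - u^θ, u + u^θ]`;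
* for each `k ≥ 1`, `(1 / log N) ∑_{n ≤ N} M(n^k)² / n^(k+1)` tends to `∑_ρ 1 / |ρ ζ'(ρ)|²`, with the same
  reading; so the weak Mertens hypothesis `∫_1^x (M(u)/u)² du ≪ log x` is equivalent to
  `∑_{n ≤ N} M(n^k)² / n^(k+1) ≪ log N`, and it is enough to have this for arbitrarily large `N`.
-/

set_option autoImplicit false

open Filter Topology MeasureTheory

namespace Pool.Agent.Results.MP_323ce2_nt.SampledValues

/-- the Mertens function -/
noncomputable def M (x : ℝ) : ℝ := ∑ n ∈ Finset.Icc 1 ⌊x⌋₊, ((ArithmeticFunction.moebius n : ℤ) : ℝ)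

/-- the nontrivial zeros of the Riemann zeta function -/
def NT : Set ℂ := {s : ℂ | riemannZeta s = 0 ∧ 0 < s.re ∧ s.re < 1}

/-- the Riemann Hypothesis holds, all nontrivial zeros are simple and `∑ 1 / |ρ ζ'(ρ)|²` converges -/
def ZerosCondition : Prop := (∀ ρ ∈ NT, ρ.re = 1 / 2 ∧ deriv riemannZeta ρ ≠ 0) ∧
  Summable (fun ρ : NT => 1 / ‖(ρ : ℂ) * deriv riemannZeta ρ‖ ^ 2)

/-- `∑ 1 / |ρ ζ'(ρ)|²` -/
noncomputable def zsum : ℝ := ∑' ρ : NT, 1 / ‖(ρ : ℂ) * deriv riemannZeta ρ‖ ^ 2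

/-- `f` tends to `c` if the condition on the zeros holds, and to `+∞` otherwise -/
def Lim {ι : Type} (l : Filter ι) (f : ι → ℝ) (c : ℝ) : Prop :=
  (ZerosCondition → Tendsto f l (𝓝 c)) ∧ (¬ ZerosCondition → Tendsto f l atTop)

/-- `m` is measurable and `|m(x) - M(x)|` is at most the difference of two values of `M` on
`[x - x^θ, x + x^θ]`, for `x ≥ a` -/
def Sampled (θ a : ℝ) (m : ℝ → ℝ) : Prop :=
  Measurable m ∧ ∀ x : ℝ, a ≤ x →
    ∃ y y' : ℝ, |y - x| ≤ x ^ θ ∧ |y' - x| ≤ x ^ θ ∧ |m x - M x| ≤ |M y - M y'|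

/-- `∫_x^{x log x} (max(s m(u), 0)/u)² du`, the mean square of the positive (`s = 1`) or negative (`s = -1`)
part of `m` on the window `[x, x log x]` -/
noncomputable def oneSided (m : ℝ → ℝ) (s x : ℝ) : ℝ := ∫ u in x..(x * Real.log x), (max (s * m u) 0 / u) ^ 2

/-- the set of the values of `|M|` on `[u - u^θ, u + u^θ]` -/
def vals (θ u : ℝ) : Set ℝ := (fun y => |M y|) '' {y : ℝ | |y - u| ≤ u ^ θ}

/-- `∑_{n ≤ N} M(n^k)² / n^(k+1)` -/
noncomputable def powerSum (k N : ℕ) : ℝ := ∑ n ∈ Finset.Icc 1 N, M ((n : ℝ) ^ k) ^ 2 / (n : ℝ) ^ (k + 1)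

theorem result {θ : ℝ} (hθ0 : 0 ≤ θ) (hθ : θ < 1) :
    (∀ (a : ℝ) (m : ℝ → ℝ), 1 ≤ a → Sampled θ a m →
      -- the limit of the mean square
      (∀ δ : ℝ, 0 < δ → δ ≤ 1 →
        Lim atTop (fun x : ℝ => (∫ u in (max a (x ^ (1 - δ)))..x, (m u / u) ^ 2) / Real.log x) (δ * zsum)) ∧
      -- both signs in every window
      (∀ ρ ∈ NT, ∃ c : ℝ, 0 < c ∧ ∀ᶠ x : ℝ in atTop, ∀ s : ℝ, s = 1 ∨ s = -1 →
        c * x ^ (2 * ρ.re - 1) ≤ oneSided m s x) ∧
      (∀ ρ ∈ NT, deriv riemannZeta ρ = 0 → ∃ c : ℝ, 0 < c ∧ ∀ᶠ x : ℝ in atTop, ∀ s : ℝ, s = 1 ∨ s = -1 →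
        c * (Real.log x ^ 2 * x ^ (2 * ρ.re - 1)) ≤ oneSided m s x) ∧
      (∀ s : ℝ, s = 1 ∨ s = -1 →
        (∀ ε : ℝ, 0 < ε → ∃ᶠ x : ℝ in atTop, oneSided m s x ≤ ε * Real.log x ^ 2) →
        ∀ ρ ∈ NT, ρ.re = 1 / 2 ∧ deriv riemannZeta ρ ≠ 0) ∧
      -- the distance from `M`
      ∀ Θ κ : ℝ, (∀ ρ ∈ NT, ρ.re ≤ Θ) → 2 * Θ - 1 + θ < κ →
        IntegrableOn (fun u => (m u - M u) ^ 2 * u ^ (-1 - κ)) (Set.Ici a)) ∧
    -- the smallest and the largest values on short intervals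
    Lim atTop (fun x : ℝ => (∫ u in (1:ℝ)..x, (sInf (vals θ u) / u) ^ 2) / Real.log x) zsum ∧
    Lim atTop (fun x : ℝ => (∫ u in (1:ℝ)..x, (sSup (vals θ u) / u) ^ 2) / Real.log x) zsum ∧
    -- the values at the `k`-th powers
    ∀ k : ℕ, 1 ≤ k →
      Lim atTop (fun N : ℕ => powerSum k N / Real.log N) zsum ∧
      ((∃ C : ℝ, ∀ x : ℝ, 2 ≤ x → ∫ u in (1:ℝ)..x, (M u / u) ^ 2 ≤ C * Real.log x) ↔
        ∃ C : ℝ, ∀ N : ℕ, 2 ≤ N → powerSum k N ≤ C * Real.log N) ∧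
      ((∃ C : ℝ, ∀ x : ℝ, 2 ≤ x → ∫ u in (1:ℝ)..x, (M u / u) ^ 2 ≤ C * Real.log x) ↔
        ∃ C : ℝ, ∃ᶠ N : ℕ in atTop, powerSum k N ≤ C * Real.log N) := by
  have hbet : ∀ {a : ℝ} {m : ℝ → ℝ}, Sampled θ a m → Q241SPL.Between θ a m := fun h => ⟨h.1, h.2⟩
  refine ⟨fun a m ha hS => ⟨?_, fun ρ hρ => (hbet hS).signs hθ0 hθ hρ,
    fun ρ hρ hd => (hbet hS).signs_multiple hθ0 hθ hρ hd, fun s hs hf ρ hρ => (hbet hS).crit hθ0 hθ hs hf hρ,
    fun Θ κ hΘ hκ => (hbet hS).maximal hθ0 hθ ha hΘ hκ⟩, ?_, ?_, ?_⟩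
  · intro δ hδ hδ1
    obtain ⟨h1, h2⟩ := (hbet hS).limit hθ0 hθ ha hδ hδ1
    have hconv : ∀ l : Filter ℝ, Tendsto (fun L : ℝ => Q241SPL.JP id m (max (Real.log a) ((1 - δ) * L)) L / L) atTop l →
        Tendsto (fun x : ℝ => (∫ u in (max a (x ^ (1 - δ)))..x, (m u / u) ^ 2) / Real.log x) atTop l := by
      intro l hl
      refine (hl.comp Real.tendsto_log_atTop).congr' ?_
      filter_upwards [eventually_ge_atTop a, eventually_ge_atTop 1] with x hxa hx1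
      have hx0 : 0 < x := by linarith
      have hle : max a (x ^ (1 - δ)) ≤ x := by
        refine max_le hxa ?_
        calc x ^ (1 - δ) ≤ x ^ (1:ℝ) := Real.rpow_le_rpow_of_exponent_le hx1 (by linarith)
          _ = x := Real.rpow_one x
      have hlog : Real.log (max a (x ^ (1 - δ))) = max (Real.log a) ((1 - δ) * Real.log x) := by
        rw [← Real.log_rpow hx0]
        rcases le_total a (x ^ (1 - δ)) with hh | hh
        · rw [max_eq_right hh, max_eq_right (Real.log_le_log (by linarith) hh)]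
        · rw [max_eq_left hh, max_eq_left (Real.log_le_log (by positivity) hh)]
      have h3 := Q241SPL.JP_eq' id m (show 0 < max a (x ^ (1 - δ)) from lt_max_of_lt_left (by linarith)) hle
      simp only [Function.comp]
      rw [← hlog, ← h3]
      rfl
    exact ⟨fun hZ => hconv _ (h1 hZ), fun hZ => hconv _ (h2 hZ)⟩
  · exact Q241SPL.vals_limit sInf (fun s hs hne => hne.csInf_mem hs) hθ0 hθ
  · exact Q241SPL.vals_limit sSup (fun s hs hne => hne.csSup_mem hs) hθ0 hθ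
  · intro k hk
    obtain ⟨h1, h2⟩ := Q241SPL.powers_limit hk
    obtain ⟨K, -, -, h⟩ := W120.WM.final2 W120.WM.sharpT
    have hw : (∃ C : ℝ, ∀ x : ℝ, 2 ≤ x → ∫ u in (1:ℝ)..x, (M u / u) ^ 2 ≤ C * Real.log x) ↔ ZerosCondition := h.out 0 2
    have hlog : ∀ N : ℕ, 2 ≤ N → 0 < Real.log (N : ℝ) := fun N hN => Real.log_pos (by exact_mod_cast hN)
    have hA : ZerosCondition → ∃ C : ℝ, ∀ N : ℕ, 2 ≤ N → powerSum k N ≤ C * Real.log N := by
      intro hZ
      obtain ⟨C, hC⟩ := (h1 hZ).bddAbove_range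
      refine ⟨C, fun N hN => ?_⟩
      have h3 := hC (Set.mem_range_self N)
      rw [div_le_iff₀ (hlog N hN)] at h3
      exact h3
    have hB : (∃ C : ℝ, ∀ N : ℕ, 2 ≤ N → powerSum k N ≤ C * Real.log N) →
        ∃ C : ℝ, ∃ᶠ N : ℕ in atTop, powerSum k N ≤ C * Real.log N := by
      rintro ⟨C, hC⟩
      exact ⟨C, (eventually_atTop.2 ⟨2, fun N hN => hC N hN⟩).frequently⟩
    have hC : (∃ C : ℝ, ∃ᶠ N : ℕ in atTop, powerSum k N ≤ C * Real.log N) → ZerosCondition := by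
      rintro ⟨C, hC⟩
      by_contra hZ
      have h3 := (h2 hZ).eventually_gt_atTop C
      obtain ⟨N, hN1, hN2, hN3⟩ := (hC.and_eventually (h3.and (eventually_ge_atTop 2))).exists
      rw [lt_div_iff₀ (hlog N hN3)] at hN2
      exact absurd hN1 (not_le.2 hN2)
    refine ⟨⟨h1, h2⟩, ⟨fun hh => hA (hw.1 hh), fun hh => hw.2 (hC (hB hh))⟩,
      ⟨fun hh => hB (hA (hw.1 hh)), fun hh => hw.2 (hC hh)⟩⟩

end Pool.Agent.Results.MP_323ce2_nt.SampledValues
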